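import Pool.Agent.Helper5.CR.M2
import Pool.Agent.Helper34.CR.M7

/-!
# M9 of `MP_79ec0d_co`: restriction to a set of edges, existence of drawings

* `crM_restrict` (M9b): same map, fewer routes.
* `exists_predrawing`: every finite multigraph has a drawing in which all edges pass through one
  common point (`hub`).
* `exists_simple_of`: the resolution theorem in its existence form.
* `exists_optimal_of` (M9a): an optimal simple drawing exists.  The modules M4a, M4b, M5, M6 are
  taken as hypotheses, as in `M7`.
-/

open Equiv Equiv.Perm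

namespace Helper5.CR

variable {V E : Type} [Fintype E] {src tgt : E → V}

open Classical in
/-- **M9b** (restriction to a set of edges). -/
theorem crM_restrict (P : PreDrawing src tgt) (hs : P.Simple) (S : E → Prop) :
    crM (fun e : {e // S e} => src e.1) (fun e : {e // S e} => tgt e.1) ≤
      Nat.card {x : P.X // ∑ e : {e // S e}, ((P.route e.1).tail.map P.pt).count x = 2} := by
  have hsum : ∀ u : E → ℕ, ∑ e : {e // S e}, u e.1 ≤ ∑ e, u e := by
    intro u
    rw [← Finset.sum_subtype (Finset.univ.filter S) (by simp) u]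
    exact Finset.sum_le_sum_of_subset (Finset.filter_subset _ _)
  let P' : PreDrawing (fun e : {e // S e} => src e.1) (fun e : {e // S e} => tgt e.1) :=
    { D := P.D
      X := P.X
      finD := P.finD
      finX := P.finX
      σ := P.σ
      α := P.α
      α_invol := P.α_invol
      α_ne := P.α_ne
      planar := P.planar
      pt := P.pt
      pt_iff := P.pt_iff
      loc := P.loc
      loc_inj := P.loc_inj
      route := fun e => P.route e.1
      route_walk := fun e => P.route_walk e.1
      route_inner := fun e => P.route_inner e.1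
      route_use := fun d =>
        (hsum fun e => ((P.route e).count d + (P.route e).count (P.α d))).trans (P.route_use d) }
  have hpass : ∀ x, P'.passes x = ∑ e : {e // S e}, ((P.route e.1).tail.map P.pt).count x :=
    fun x => rfl
  have hsimple : P'.Simple := fun x => by
    rw [hpass]
    exact (hsum fun e => ((P.route e).tail.map P.pt).count x).trans (hs x)
  exact Nat.sInf_le ⟨P', hsimple, rfl⟩

/-! ### permutations with prescribed cycles -/

section perm
variable {D : Type} [Fintype D]

/-- an invariant surjection bounds the number of cycles from below -/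
theorem le_nc_of_surj {Y : Type} (π : Perm D) (g : D → Y) (hg : ∀ d, g (π d) = g d)
    (hs : Function.Surjective g) : Nat.card Y ≤ nc π := by
  classical
  have hinv : ∀ a b, π.SameCycle a b → g a = g b := by
    intro a b h
    exact sameCycle_of_forall (Setoid.ker g) (fun d => (hg d).symm) h
  refine Nat.card_le_card_of_surjective
    (Quotient.lift g (fun a b h => hinv a b h) : Quotient (SameCycle.setoid π) → Y) ?_
  intro y
  obtain ⟨d, rfl⟩ := hs y
  exact ⟨Quotient.mk _ d, rfl⟩

/-- there is a permutation whose cycles are the fibres of a given function -/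
theorem exists_perm_fibers {Y : Type} (f : D → Y) :
    ∃ ρ : Perm D, ∀ a b, ρ.SameCycle a b ↔ f a = f b := by
  classical
  have hex : ∃ n, ∃ ρ : Perm D, (∀ a b, ρ.SameCycle a b → f a = f b) ∧ nc ρ = n :=
    ⟨_, 1, fun a b h => by
      have : a = b := by simpa using h
      rw [this], rfl⟩
  obtain ⟨ρ, h1, h2⟩ := Nat.find_spec hex
  refine ⟨ρ, fun a b => ⟨h1 a b, fun hab => ?_⟩⟩
  by_contra hcon
  have h3 := nc_mul_swap_of_not hcon
  refine Nat.find_min hex (m := nc (ρ * swap a b)) (by omega) ⟨ρ * swap a b, ?_, rfl⟩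
  intro c d hcd
  rcases (sameCycle_mul_swap hcon c d).1 hcd with h | ⟨h, h'⟩ | ⟨h, h'⟩
  · exact h1 _ _ h
  · rw [h1 _ _ h, h1 _ _ h', hab]
  · rw [h1 _ _ h, h1 _ _ h', hab]

/-- the flip of the second coordinate -/
def flipBool (H : Type) : Perm (H × Bool) :=
  ⟨fun d => (d.1, !d.2), fun d => (d.1, !d.2), fun d => by simp, fun d => by simp⟩

/-- the rotation of the dipoles -/
def dipole {H : Type} (ρ : Perm H) : Perm (H × Bool) :=
  ⟨fun d => (if d.2 then ρ⁻¹ d.1 else ρ d.1, d.2), fun d => (if d.2 then ρ d.1 else ρ⁻¹ d.1, d.2),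
    fun d => by obtain ⟨h, b⟩ := d; cases b <;> simp,
    fun d => by obtain ⟨h, b⟩ := d; cases b <;> simp⟩

theorem dipole_false {H : Type} (ρ : Perm H) (h : H) : dipole ρ (h, false) = (ρ h, false) := rfl
theorem dipole_true {H : Type} (ρ : Perm H) (h : H) : dipole ρ (h, true) = (ρ⁻¹ h, true) := rfl
theorem flipBool_apply {H : Type} (h : H) (b : Bool) : flipBool H (h, b) = (h, !b) := rfl

theorem dipole_pow_false {H : Type} (ρ : Perm H) (n : ℕ) (h : H) :
    (dipole ρ ^ n) (h, false) = ((ρ ^ n) h, false) := by
  induction n generalizing h with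
  | zero => simp
  | succ n ih => rw [pow_succ, mul_apply, dipole_false, ih, pow_succ, mul_apply]

theorem dipole_pow_true {H : Type} (ρ : Perm H) (n : ℕ) (h : H) :
    (dipole ρ ^ n) (h, true) = ((ρ⁻¹ ^ n) h, true) := by
  induction n generalizing h with
  | zero => simp
  | succ n ih => rw [pow_succ, mul_apply, dipole_true, ih, pow_succ, mul_apply]

theorem dipole_sameCycle {H : Type} [Finite H] (ρ : Perm H) {h h' : H} (hh : ρ.SameCycle h h')
    (b : Bool) : (dipole ρ).SameCycle (h, b) (h', b) := by
  cases b
  · obtain ⟨n, hn⟩ := hh.exists_nat_pow_eq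
    exact ⟨n, by rw [zpow_natCast, dipole_pow_false, hn]⟩
  · obtain ⟨n, hn⟩ := (sameCycle_inv.2 hh).exists_nat_pow_eq
    exact ⟨n, by rw [zpow_natCast, dipole_pow_true, hn]⟩

/-- the dipoles form a planar map -/
theorem planar_dipole {H : Type} [Fintype H] [DecidableEq H] (ρ : Perm H) :
    Planar (dipole ρ) (flipBool H) := by
  have h1 : 2 * nc ρ ≤ nc (dipole ρ) := by
    have h := le_nc_of_surj (Y := Quotient (SameCycle.setoid ρ) × Bool) (dipole ρ)
      (fun d => (Quotient.mk _ d.1, d.2)) (by
        rintro ⟨h, b⟩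
        refine Prod.ext ?_ rfl
        cases b
        · exact Quotient.sound (s := SameCycle.setoid ρ) (⟨-1, by simp [dipole_false]⟩)
        · exact Quotient.sound (s := SameCycle.setoid ρ) (⟨1, by simp [dipole_true]⟩)) (by
        rintro ⟨q, b⟩
        obtain ⟨h, rfl⟩ := Quotient.exists_rep q
        exact ⟨(h, b), rfl⟩)
    rw [Nat.card_prod] at h
    have h2 : Nat.card Bool = 2 := by simp
    rw [h2] at h
    unfold nc at h ⊢
    omega
  have h2 : Nat.card H ≤ nc (flipBool H) :=
    le_nc_of_surj (flipBool H) Prod.fst (fun d => rfl) (fun h => ⟨(h, false), rfl⟩)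
  have h3 : Nat.card H ≤ nc (dipole ρ * flipBool H) := by
    refine le_nc_of_surj _ (fun d => if d.2 then ρ d.1 else d.1) ?_ (fun h => ⟨(h, false), rfl⟩)
    rintro ⟨h, b⟩
    cases b
    · simp [flipBool_apply, dipole_true]
    · simp [flipBool_apply, dipole_false]
  have h4 : ncomp (dipole ρ) (flipBool H) ≤ nc ρ := by
    refine Nat.card_le_card_of_surjective (Quotient.map' (s₁ := SameCycle.setoid ρ)
      (s₂ := comp (dipole ρ) (flipBool H)) (fun h => (h, false)) ?_) ?_
    · intro h h' hh
      exact comp_of_sigma (dipole_sameCycle ρ hh false)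
    · intro q
      obtain ⟨⟨h, b⟩, rfl⟩ := Quotient.exists_rep q
      refine ⟨Quotient.mk _ h, ?_⟩
      refine Quotient.sound (s := comp (dipole ρ) (flipBool H)) ?_
      cases b
      · exact (comp (dipole ρ) (flipBool H)).refl _
      · exact comp_of_alpha ⟨1, by simp [flipBool_apply]⟩
  have h5 := euler_le (dipole ρ) (flipBool H)
  have h6 : Nat.card (H × Bool) = 2 * Nat.card H := by
    rw [Nat.card_prod]
    have : Nat.card Bool = 2 := by simp
    rw [this]; ring
  unfold Planar
  omega

/-- the planar map in which all the segments `(h, ·)` join the hub to the point `f h` -/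
theorem exists_hub {H Y : Type} [Fintype H] (f : H → Y) :
    ∃ σ : Perm (H × Bool), Planar σ (flipBool H) ∧ ∀ d d', σ.SameCycle d d' ↔
      (if d.2 then none else some (f d.1)) = (if d'.2 then none else some (f d'.1)) := by
  classical
  let lab : H × Bool → Option Y := fun d => if d.2 then none else some (f d.1)
  obtain ⟨ρ, hρ⟩ := exists_perm_fibers f
  let Q : Perm (H × Bool) → Prop := fun σ => Planar σ (flipBool H) ∧
    (∀ d d', σ.SameCycle d d' → lab d = lab d') ∧
    (∀ h h', f h = f h' → σ.SameCycle (h, false) (h', false)) ∧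
    (∀ h h', comp σ (flipBool H) (h, true) (h', true) → σ.SameCycle (h, true) (h', true))
  have hdlab : ∀ d, lab (dipole ρ d) = lab d := by
    rintro ⟨h, b⟩
    cases b
    · have h1 : f (ρ h) = f h := (hρ _ _).1 ⟨-1, by simp⟩
      simp [lab, dipole_false, h1]
    · simp [lab, dipole_true]
  have hex : ∃ n, ∃ σ : Perm (H × Bool), Q σ ∧ nc σ = n := by
    refine ⟨_, dipole ρ, ⟨planar_dipole ρ, ?_, ?_, ?_⟩, rfl⟩
    · intro d d' h
      exact sameCycle_of_forall (Setoid.ker lab) (fun d => (hdlab d).symm) h
    · intro h h' hh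
      exact dipole_sameCycle ρ ((hρ _ _).2 hh) false
    · intro h h' hh
      refine dipole_sameCycle ρ ((hρ _ _).2 ?_) true
      have h1 : comp (dipole ρ) (flipBool H) ≤ Setoid.ker (fun d : H × Bool => f d.1) := by
        refine sup_le ?_ ?_
        · intro a b hab
          refine sameCycle_of_forall (Setoid.ker (fun d : H × Bool => f d.1)) ?_ hab
          rintro ⟨h, b⟩
          cases b
          · exact ((hρ _ _).1 ⟨1, by simp⟩ : f h = f (ρ h))
          · exact ((hρ _ _).1 ⟨-1, by simp⟩ : f h = f (ρ⁻¹ h))
        · intro a b hab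
          exact sameCycle_of_forall (Setoid.ker (fun d : H × Bool => f d.1)) (fun d => rfl) hab
      exact h1 hh
  obtain ⟨σ, ⟨h1, h2, h3, h4⟩, h5⟩ := Nat.find_spec hex
  have hub : ∀ h h', σ.SameCycle (h, true) (h', true) := by
    intro h h'
    by_contra hcon
    have hc : ¬ comp σ (flipBool H) (h, true) (h', true) := fun hh => hcon (h4 _ _ hh)
    have h6 := nc_mul_swap_of_not hcon
    have hsc := sameCycle_mul_swap hcon
    refine Nat.find_min hex (m := nc (σ * swap (h, true) (h', true))) (by omega)
      ⟨_, ⟨h1.merge_comp hc, ?_, ?_, ?_⟩, rfl⟩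
    · intro d d' hd
      rcases (hsc d d').1 hd with h' | ⟨h', h''⟩ | ⟨h', h''⟩
      · exact h2 _ _ h'
      · rw [h2 _ _ h', h2 _ _ h'']; simp [lab]
      · rw [h2 _ _ h', h2 _ _ h'']; simp [lab]
    · intro k k' hk
      exact (hsc _ _).2 (Or.inl (h3 _ _ hk))
    · intro k k' hk
      rw [comp_mul_swap hcon, pairSup_iff] at hk
      refine (hsc _ _).2 ?_
      rcases hk with h' | ⟨h', h''⟩ | ⟨h', h''⟩
      · exact Or.inl (h4 _ _ h')
      · exact Or.inr (Or.inl ⟨h4 _ _ h', h4 _ _ h''⟩)
      · exact Or.inr (Or.inr ⟨h4 _ _ h', h4 _ _ h''⟩)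
  refine ⟨σ, h1, ?_⟩
  rintro ⟨h, b⟩ ⟨h', b'⟩
  refine ⟨h2 _ _, ?_⟩
  cases b <;> cases b' <;> simp
  · exact h3 h h'
  · exact hub h h'

end perm

/-! ### a drawing through a hub -/

theorem isWalk_two {D X : Type} {pt : D → X} {α : Perm D} {x y : X} {c b : D} (h1 : pt c = x)
    (h2 : pt b = pt (α c)) (h3 : pt (α b) = y) : IsWalk pt α x y [c, b] := ⟨h1, h2, h3⟩

/-- every finite multigraph has a drawing (through a hub) -/
theorem exists_predrawing [Finite V] (src tgt : E → V) :
    ∃ P : PreDrawing src tgt, ∀ d, P.pt d ≠ P.pt (P.α d) := by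
  classical
  obtain ⟨σ, hσ, hpt⟩ := exists_hub (H := E × Bool) (fun h => if h.2 then tgt h.1 else src h.1)
  have : Fintype V := Fintype.ofFinite V
  let P : PreDrawing src tgt :=
    { D := (E × Bool) × Bool
      X := Option V
      finD := inferInstance
      finX := inferInstance
      σ := σ
      α := flipBool _
      α_invol := fun d => by obtain ⟨h, b⟩ := d; simp [flipBool_apply]
      α_ne := fun d => by obtain ⟨h, b⟩ := d; simp [flipBool_apply]
      planar := hσ
      pt := fun d => if d.2 then none else some (if d.1.2 then tgt d.1.1 else src d.1.1)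
      pt_iff := fun d d' => (hpt d d').symm
      loc := some
      loc_inj := Option.some_injective _
      route := fun e => [((e, false), false), ((e, true), true)]
      route_walk := fun e => isWalk_two (by simp) (by simp [flipBool_apply])
        (by simp [flipBool_apply])
      route_inner := fun e d hd v => by
        simp only [List.tail_cons, List.mem_singleton] at hd
        subst hd
        simp
      route_use := fun d => by
        obtain ⟨⟨e, b⟩, c⟩ := d
        rw [Finset.sum_eq_single e]
        · cases b <;> cases c <;> simp [flipBool_apply]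
        · intro e' _ hne
          simp [flipBool_apply, hne]
        · intro h
          exact absurd (Finset.mem_univ e) h }
  refine ⟨P, ?_⟩
  rintro ⟨⟨e, b⟩, c⟩
  cases b <;> cases c <;> simp [P, flipBool_apply]

namespace PreDrawing

/-- the resolution theorem in its existence form, clean drawings -/
lemma exists_simple_clean (hcard : CardUsedStmt src tgt) (hsplit : SplitStmt src tgt)
    (hswap : SwapStmt src tgt) : ∀ (n : ℕ) (P : PreDrawing src tgt), P.cost hw = n → P.Clean →
    (∀ d, P.Used d → P.pt d ≠ P.pt (P.α d)) →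
    ∃ P' : PreDrawing src tgt, P'.Simple ∧ P'.crossings ≤ P.cost gr := by
  classical
  intro n
  induction n using Nat.strong_induction_on with
  | _ n ih =>
    intro P hn hP hL
    by_cases hs : P.Simple
    · have h1 : P.crossings = P.cost gr := by
        unfold crossings cost
        rw [Nat.card_eq_fintype_card, Fintype.card_subtype, Finset.card_filter]
        refine Finset.sum_congr rfl fun x _ => ?_
        have := hs x
        unfold gr
        split_ifs <;> omega
      exact ⟨P, hs, h1.le⟩
    · unfold Simple at hs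
      push Not at hs
      obtain ⟨x, hx⟩ := hs
      obtain ⟨P', h1, h2, h3, h4⟩ := exists_step hcard hsplit hswap P hP hL x (by omega)
      obtain ⟨P'', h5, h6⟩ := ih _ (hn ▸ h4) P' rfl h1 h2
      exact ⟨P'', h5, h6.trans h3⟩

/-- the resolution theorem in its existence form -/
theorem exists_simple_of (hclean : CleanStmt src tgt) (hcard : CardUsedStmt src tgt)
    (hsplit : SplitStmt src tgt) (hswap : SwapStmt src tgt) (P : PreDrawing src tgt)
    (hL : ∀ d, P.Used d → P.pt d ≠ P.pt (P.α d)) :
    ∃ P' : PreDrawing src tgt, P'.Simple ∧ P'.crossings ≤ P.cost gr := by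
  classical
  obtain ⟨P', hC, i, j, hj, hα, hroute, hpt, hpass, hpass0⟩ := hclean P
  have hused : ∀ d, P'.Used d → P.Used (i d) := by
    rintro d ⟨e, he⟩
    refine ⟨e, ?_⟩
    rw [← hroute e]
    rcases he with he | he
    · exact Or.inl (List.mem_map_of_mem he)
    · refine Or.inr ?_
      rw [← hα]
      exact List.mem_map_of_mem he
  have husedα : ∀ d, P'.Used d → P'.Used (P'.α d) := by
    rintro d ⟨e, he⟩
    refine ⟨e, ?_⟩
    rw [P'.α_invol]
    exact he.symm
  have hL' : ∀ d, P'.Used d → P'.pt d ≠ P'.pt (P'.α d) := by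
    intro d hd h
    rw [hpt d hd, hpt _ (husedα d hd), hα] at h
    exact hL _ (hused d hd) (hj h)
  have hcost : P'.cost gr = P.cost gr := by
    unfold cost
    have h1 : ∑ x : P.X, gr (P.passes x) = ∑ x ∈ (Finset.univ : Finset P.X).map ⟨j, hj⟩,
        gr (P'.passes x) := by
      rw [Finset.sum_map]
      exact Finset.sum_congr rfl fun x _ => by
        rw [Function.Embedding.coeFn_mk, hpass]
    rw [h1]
    symm
    refine Finset.sum_subset (Finset.subset_univ _) fun x _ hx => ?_
    rw [hpass0 x fun ⟨y, hy⟩ => hx (Finset.mem_map.2 ⟨y, Finset.mem_univ _, hy⟩)]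
    rfl
  rw [← hcost]
  exact exists_simple_clean hcard hsplit hswap _ P' rfl hC hL'

end PreDrawing

/-- **M9a** (existence of an optimal simple drawing); loops are allowed. -/
theorem exists_optimal_of [Finite V] (hclean : PreDrawing.CleanStmt src tgt)
    (hcard : PreDrawing.CardUsedStmt src tgt) (hsplit : PreDrawing.SplitStmt src tgt)
    (hswap : PreDrawing.SwapStmt src tgt) :
    ∃ P : PreDrawing src tgt, P.Simple ∧ P.crossings = crM src tgt := by
  obtain ⟨P₀, h₀⟩ := exists_predrawing src tgt
  obtain ⟨P₁, h1, -⟩ := PreDrawing.exists_simple_of hclean hcard hsplit hswap P₀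
    (fun d _ => h₀ d)
  exact Nat.sInf_mem (s := {k | ∃ P : PreDrawing src tgt, P.Simple ∧ P.crossings = k})
    ⟨_, P₁, h1, rfl⟩

end Helper5.CR
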