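import Pool.Agent.Helper75.CR.St

/-!
Project CR, module F: the last new index.
-/

set_option autoImplicit false

namespace Pool.Agent.Helper98.CR

open Pool.Agent.Helper75.CR Helper1.IM

/-- F. -/
theorem hF : StF := by
  intro B u
  induction u using List.reverseRecOn with
  | nil => intro h; exact absurd rfl h
  | append_singleton u c ih =>
    intro _
    by_cases hc : c.1 ∈ cn u
    · have hu : u ≠ [] := by
        rintro rfl
        simp at hc
      obtain ⟨s, a, t, h1, h2, h3⟩ := ih hu
      refine ⟨s, a, t ++ [c], by rw [h1]; simp, h2, ?_⟩
      rw [h3, cn_append]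
      have : cn [c] = {c.1} := by simp
      rw [this]
      symm
      exact Finset.union_eq_left.2 (by simpa using hc)
    · exact ⟨u, c, [], rfl, hc, rfl⟩

end Pool.Agent.Helper98.CR
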